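import Pool.Agent.Helper31.PathCoverProof

namespace Pool.Agent.Results.MP_2ace6b_co.SuperlinearPathCover

open Pool.Agent.Helper31.PathCover

/-- For all sufficiently large `n` there is an `n`-point set `A` in general position in the plane
for which every covering of the edges of `K_n[A]` by noncrossing paths needs at least
`(1/32) n log n / log log n` paths. -/
theorem result : ∃ n₀ : ℕ, ∀ n : ℕ, n₀ ≤ n →
    ∃ A : Finset (ℝ × ℝ), A.card = n ∧ GeneralPosition A ∧
      (1 / 32 : ℝ) * n * Real.log n / Real.log (Real.log n) ≤ pathCoverNumber A :=
  main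

end Pool.Agent.Results.MP_2ace6b_co.SuperlinearPathCover
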